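import Pool.Agent.Helper9.LS5.SheetN

/-!
Project LS5 (MP_9a3c31_nt), row FAC: common factorisation of finitely many polynomials.
-/

open MvPolynomial

namespace Pool.Agent.Helper15.LS5

/-- in a unique factorisation monoid with choice of representatives of the primes -/
theorem fac_ufd {R : Type} [CommRing R] [IsDomain R] [UniqueFactorizationMonoid R] (n : ℕ)
    (p : Fin n → R) (hp : ∀ i, p i ≠ 0) :
    ∃ (s : ℕ) (g : Fin s → R) (a : Fin n → Fin s → ℕ) (c : Fin n → Rˣ),
      (∀ j, g j ≠ 0) ∧ (∀ j j', j ≠ j' → IsRelPrime (g j) (g j')) ∧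
      ∀ i, p i = c i * ∏ j, g j ^ a i j := by
  classical
  let _ : StrongNormalizationMonoid R := UniqueFactorizationMonoid.strongNormalizationMonoid
  set S : Finset R := Finset.univ.biUnion fun i =>
    (UniqueFactorizationMonoid.normalizedFactors (p i)).toFinset with hS
  have hS1 : ∀ q ∈ S, Irreducible q ∧ normalize q = q := by
    intro q hq
    rw [hS, Finset.mem_biUnion] at hq
    obtain ⟨i, -, hi⟩ := hq
    rw [Multiset.mem_toFinset] at hi
    exact ⟨UniqueFactorizationMonoid.irreducible_of_normalized_factor q hi,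
      UniqueFactorizationMonoid.normalize_normalized_factor q hi⟩
  have key : ∀ i, ∃ c : Rˣ, p i = c * ∏ q ∈ S,
      q ^ (UniqueFactorizationMonoid.normalizedFactors (p i)).count q := by
    intro i
    have h1 := UniqueFactorizationMonoid.prod_normalizedFactors (hp i)
    obtain ⟨u, hu⟩ := h1
    refine ⟨u, ?_⟩
    have h2 : (UniqueFactorizationMonoid.normalizedFactors (p i)).prod = ∏ q ∈ S,
        q ^ (UniqueFactorizationMonoid.normalizedFactors (p i)).count q := by
      rw [Finset.prod_multiset_count]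
      refine Finset.prod_subset ?_ ?_
      · intro q hq
        rw [hS, Finset.mem_biUnion]
        exact ⟨i, Finset.mem_univ _, hq⟩
      · intro q _ hq
        rw [Multiset.mem_toFinset] at hq
        rw [Multiset.count_eq_zero_of_notMem hq, pow_zero]
    rw [← h2, mul_comm, hu]
  choose c hc using key
  let e := S.equivFin
  refine ⟨S.card, fun j => (e.symm j : R), fun i j =>
    (UniqueFactorizationMonoid.normalizedFactors (p i)).count (e.symm j : R), c, ?_, ?_, ?_⟩
  · intro j
    exact (hS1 _ (e.symm j).2).1.ne_zero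
  · intro j j' hj
    have h1 := hS1 _ (e.symm j).2
    have h2 := hS1 _ (e.symm j').2
    refine (Irreducible.isRelPrime_iff_not_dvd h1.1).2 ?_
    intro hd
    have h3 : Associated (e.symm j : R) (e.symm j' : R) := h1.1.associated_of_dvd h2.1 hd
    have h4 := normalize_eq_normalize_iff.2 ⟨h3.dvd, h3.symm.dvd⟩
    rw [h1.2, h2.2] at h4
    exact hj (e.symm.injective (Subtype.ext h4))
  · intro i
    rw [hc i]
    congr 1
    rw [← Finset.prod_coe_sort]
    exact (Fintype.prod_equiv e _ _ fun q => by simp)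

theorem FAC : Pool.Agent.Helper9.LS5.ST_FAC := by
  intro F _ r n p hp
  obtain ⟨s, g, a, c, hg, hr, h⟩ := fac_ufd n p hp
  have hu : ∀ i, ∃ b : F, b ≠ 0 ∧ ((c i : (MvPolynomial (Fin r) F)ˣ) : MvPolynomial (Fin r) F) =
      C b := by
    intro i
    obtain ⟨b, hb, hb'⟩ := MvPolynomial.isUnit_iff_eq_C_of_isReduced.1 (c i).isUnit
    exact ⟨b, hb.ne_zero, hb'⟩
  choose b hb hb' using hu
  exact ⟨s, g, a, b, hb, hg, hr, fun i => by rw [h i, hb' i]⟩

end Pool.Agent.Helper15.LS5
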