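import Pool.Agent.Helper9.LS5.SheetN

/-!
Project LS5 (MP_9a3c31_nt), row HFP: sums over finite places and heights.
-/

open Filter NumberField Height

namespace Pool.Agent.Helper15.LS5

open Pool.Agent.Helper9.LS5

theorem hfp_supp {K : Type} [Field K] [NumberField K] (z : K) :
    (Function.support fun v : FinitePlace K => Real.posLog (v z)).Finite := by
  by_cases hz : z = 0
  · subst hz
    simp [Function.support]
  · have h := FinitePlace.hasFiniteMulSupport hz
    refine h.subset fun v hv => ?_
    rw [Function.mem_support] at hv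
    rw [Function.mem_mulSupport]
    intro h1
    exact hv (by rw [h1]; simp)

theorem hfp_one {K : Type} [Field K] [NumberField K] (z : K) (T : Finset (FinitePlace K)) :
    ∑ V ∈ T, max 0 (Real.log (V z)) ≤ logHeight₁ z := by
  rw [NumberField.logHeight₁_eq]
  have h1 : 0 ≤ ∑ v : InfinitePlace K, (v.mult : ℝ) * Real.posLog (v z) :=
    Finset.sum_nonneg fun v _ => mul_nonneg (Nat.cast_nonneg _) Real.posLog_nonneg
  have h2 : ∑ V ∈ T, max 0 (Real.log (V z)) ≤ ∑ᶠ v : FinitePlace K, Real.posLog (v z) := by
    classical
    rw [finsum_eq_sum_of_support_subset (s := (hfp_supp z).toFinset ∪ T) _ (by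
      intro v hv
      rw [Finset.coe_union]
      left
      simpa using hv)]
    refine Finset.sum_le_sum_of_subset_of_nonneg (Finset.subset_union_right) ?_
    intro v _ _
    exact Real.posLog_nonneg
  linarith

theorem HFP : ST_HFP := by
  intro K _ _ z T
  refine ⟨hfp_one z T, ?_⟩
  have h1 := hfp_one z T
  have h2 := hfp_one z⁻¹ T
  rw [logHeight₁_inv] at h2
  have h3 : ∑ V ∈ T, |Real.log (V z)| =
      ∑ V ∈ T, max 0 (Real.log (V z)) + ∑ V ∈ T, max 0 (Real.log (V z⁻¹)) := by
    rw [← Finset.sum_add_distrib]
    refine Finset.sum_congr rfl fun V _ => ?_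
    rw [map_inv₀, Real.log_inv]
    rcases le_total 0 (Real.log (V z)) with h | h
    · rw [abs_of_nonneg h, max_eq_right h, max_eq_left (by linarith), add_zero]
    · rw [abs_of_nonpos h, max_eq_left h, max_eq_right (by linarith), zero_add]
  rw [h3]
  linarith

end Pool.Agent.Helper15.LS5
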