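import Pool.Agent.Helper15.LS5.HFP

/-!
Project LS5 (MP_9a3c31_nt), rows SLS and POS: slow elements and elements of `OS` at the finite
places.
-/

set_option autoImplicit false

open Filter NumberField Height

namespace Pool.Agent.Helper15.LS5

open Pool.Agent.Helper71.JN Pool.Agent.Helper70.SUB Pool.Agent.Helper77.SUBK
  Pool.Agent.Helper70.SUBL Pool.Agent.Helper70.SUBW Pool.Agent.Helper9.MTK
  Pool.Agent.Helper9.LS5

/-- (SLS) -/
theorem SLS (hHSL : ST_HSL) : ST_SLS := by
  intro M _ _ _ S P φ X z hS hX hz ε hε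
  have h1 := (hHSL M S P φ X hS hX z).1 hz (ε / 2) (by positivity)
  filter_upwards [h1, hX.eventually_ge_atTop 1] with j h2 h3 T
  have h4 := (HFP M (z j) T).2
  have h5 : logHeight₁ (z j) ≤ ε / 2 * Real.log (X j) := by
    rw [logHeight₁_eq_log_mulHeight₁, ← Real.log_rpow (by linarith)]
    exact Real.log_le_log (mulHeight₁_pos _) h2
  linarith

section
variable {M : Type} [Field M] [NumberField M]

theorem pos_int (v : FinitePlace M) {a : M} (ha : IsIntegral ℤ a) : v a ≤ 1 := by
  obtain ⟨b, hb⟩ : ∃ b : NumberField.RingOfIntegers M, (b : M) = a := ⟨⟨a, ha⟩, rfl⟩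
  rw [← FinitePlace.norm_embedding_eq, ← hb]
  exact FinitePlace.norm_le_one M _ b

theorem pos_nat (n : ℕ) :
    logHeight₁ (n : M) ≤ Module.finrank ℚ M * Real.log n := by
  rw [NumberField.logHeight₁_eq]
  have h1 : ∑ᶠ v : FinitePlace M, Real.posLog (v (n : M)) = 0 := by
    rw [← finsum_zero (α := FinitePlace M)]
    refine finsum_congr fun v => ?_
    have h2 : v (n : M) ≤ 1 := pos_int v (isIntegral_natCast n)
    rw [Real.posLog_eq_zero_iff, abs_of_nonneg (apply_nonneg v _)]
    exact h2
  rw [h1, add_zero]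
  have hd : ∑ w : InfinitePlace M, (w.mult : ℝ) = Module.finrank ℚ M := by
    have h := InfinitePlace.sum_mult_eq (K := M)
    exact_mod_cast h
  rw [← hd, Finset.sum_mul]
  refine Finset.sum_le_sum fun w _ => mul_le_mul_of_nonneg_left ?_ (Nat.cast_nonneg _)
  have h3 : w (n : M) = n := by
    rw [← InfinitePlace.norm_embedding_eq, map_natCast]
    exact Complex.norm_natCast n
  rw [h3, Real.posLog_apply]
  refine max_le (Real.log_natCast_nonneg n) le_rfl

/-- `S`-smooth numbers are units at the places which are not above `S` -/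
theorem pos_sm {S : Finset ℕ} (V : FinitePlace M) (hV : Aw S V) :
    ∀ n : ℕ, Sm S n → V (n : M) = 1 := by
  intro n
  induction n using Nat.strong_induction_on with
  | _ n ih =>
    intro hn
    by_cases h1 : n = 1
    · subst h1
      simp
    · obtain ⟨q, hq, hqn⟩ := Nat.exists_prime_and_dvd h1
      obtain ⟨m, hm⟩ := hqn
      have hn0 := hn.1
      have hm0 : m ≠ 0 := by
        rintro rfl
        exact hn0 (by rw [hm, mul_zero])
      have hmn : m < n := by
        rw [hm]
        have := hq.two_le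
        have := Nat.pos_of_ne_zero hm0
        nlinarith
      have h2 := ih m hmn ⟨hm0, fun r hr hrm => hn.2 r hr (hm ▸ hrm.mul_left q)⟩
      have h3 := hV q (hn.2 q hq (hm ▸ dvd_mul_right q m))
      rw [hm, Nat.cast_mul, map_mul, h2, h3, one_mul]

/-- `S`-integral elements are integral at the places which are not above `S` -/
theorem pos_si {S : Finset ℕ} (V : FinitePlace M) (hV : Aw S V) {z : M} (hz : SI S z) :
    V z ≤ 1 := by
  obtain ⟨n, hn, hi⟩ := hz
  have h1 := pos_int V hi
  rw [map_mul, pos_sm V hV n hn, one_mul] at h1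
  exact h1

end

/-- (POS) -/
theorem POS : ST_POS := by
  intro M _ _ _ S P φ X z hS hX hz ε hε
  obtain ⟨d, hd⟩ : ∃ d : ℕ, d = Module.finrank ℚ M := ⟨_, rfl⟩
  have h1 := hz.1 (ε / (2 * (d + 1))) (by positivity)
  filter_upwards [h1, hX.eventually_ge_atTop 1] with j h2 h3 T hT
  obtain ⟨D, hD0, hD, hi⟩ := h2
  have hlX : 0 ≤ Real.log (X j) := Real.log_nonneg h3
  have hDM : (D : M) ≠ 0 := by exact_mod_cast hD0
  have h4 : Real.log D ≤ ε / (2 * (d + 1)) * Real.log (X j) := by
    rw [← Real.log_rpow (by linarith)]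
    exact Real.log_le_log (by exact_mod_cast Nat.pos_of_ne_zero hD0) hD
  have h5 : ∀ V ∈ T, max 0 (Real.log (V (z j))) ≤ |Real.log (V (D : M))| := by
    intro V hV
    refine max_le (abs_nonneg _) ?_
    by_cases hz0 : z j = 0
    · rw [hz0, map_zero, Real.log_zero]
      exact abs_nonneg _
    · have h6 := pos_si V (hT V hV) hi
      rw [map_mul] at h6
      have h7 : 0 < V (D : M) := FinitePlace.pos_iff.2 hDM
      have h8 : 0 < V (z j) := FinitePlace.pos_iff.2 hz0
      have h9 := Real.log_le_log (mul_pos h7 h8) h6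
      rw [Real.log_one, Real.log_mul h7.ne' h8.ne'] at h9
      have h10 := neg_abs_le (Real.log (V (D : M)))
      linarith
  have h6 := (HFP M (D : M) T).2
  have h7 := pos_nat (M := M) D
  rw [← hd] at h7
  have h8 := Finset.sum_le_sum h5
  have h9 : (d : ℝ) * Real.log D ≤ d * (ε / (2 * (d + 1)) * Real.log (X j)) :=
    mul_le_mul_of_nonneg_left h4 (Nat.cast_nonneg _)
  have h10 : 2 * ((d : ℝ) * (ε / (2 * (d + 1)) * Real.log (X j))) ≤ ε * Real.log (X j) := by
    have e1 : 2 * ((d : ℝ) * (ε / (2 * (d + 1)) * Real.log (X j))) =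
        (d / (d + 1)) * (ε * Real.log (X j)) := by
      field_simp
    rw [e1]
    have h11 : (d : ℝ) / (d + 1) ≤ 1 := by
      rw [div_le_one (by positivity)]
      linarith
    exact mul_le_of_le_one_left (by positivity) h11
  linarith

end Pool.Agent.Helper15.LS5
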