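import Pool.Agent.Helper9.LS5.SheetE
import Pool.Agent.Helper99.LK.KPL
import Pool.Agent.Helper71.LK.KRM
import Pool.Agent.Helper99.LK.KSM

/-!
Project LS5 (MP_9a3c31_nt), row ZIM: the canonical height is at least the height of the
`x`-coordinate minus a constant times the heights of the coefficients.
-/

open Filter Topology NumberField Height

namespace Pool.Agent.Helper15.LS5

open Pool.Agent.Helper42.LS Pool.Agent.Helper42.LK

open Pool.Agent.Helper9.LS5

section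
variable {K : Type} [Field K] [NumberField K]

lemma lh_le_sum {ι : Type} [Fintype ι] [DecidableEq ι] (c : ι → K) :
    logHeight c ≤ ∑ a, logHeight₁ (c a) := by
  have hx : ∀ a, (![c a, 1] : Fin 2 → K) ≠ 0 := by intro a; simp
  have h1 := logHeight_fun_prod_eq hx
  have h2 := logHeight_comp_le
    (fun b : ι => (fun a : ι => if a = b then (0 : Fin 2) else 1))
    (fun I : ι → Fin 2 => ∏ a, (![c a, 1] : Fin 2 → K) (I a))
  rw [h1] at h2
  have h3 : (fun I : ι → Fin 2 => ∏ a, (![c a, 1] : Fin 2 → K) (I a)) ∘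
      (fun b : ι => (fun a : ι => if a = b then (0 : Fin 2) else 1)) = c := by
    funext b
    simp only [Function.comp]
    rw [Finset.prod_eq_single b]
    · simp
    · intro a _ hab
      simp [hab]
    · intro h
      exact absurd (Finset.mem_univ b) h
  rw [h3] at h2
  refine h2.trans (le_of_eq ?_)
  exact Finset.sum_congr rfl fun a _ => (logHeight₁_eq_logHeight (c a)).symm

lemma lh_scalar (c : K) (hc : c ≠ 0) (x : K) (n : ℕ) :
    logHeight ![c * x ^ n, c] = n * logHeight₁ x := by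
  have h1 : (![c * x ^ n, c] : Fin 2 → K) = c • ((![x, 1] : Fin 2 → K) ^ n) := by
    funext i
    fin_cases i <;> simp
  rw [h1, logHeight_smul_eq_logHeight _ hc, logHeight_pow, ← logHeight₁_eq_logHeight]

lemma lh_pow3 (x : K) : logHeight ![1, x, x ^ 2, x ^ 3] ≤ 3 * logHeight₁ x := by
  have hx : ∀ a : Fin 3, (![x, 1] : Fin 2 → K) ≠ 0 := by intro a; simp
  have h1 := logHeight_fun_prod_eq hx
  have h2 := logHeight_comp_le
    (![![1, 1, 1], ![0, 1, 1], ![0, 0, 1], ![0, 0, 0]] : Fin 4 → Fin 3 → Fin 2)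
    (fun I : Fin 3 → Fin 2 => ∏ a : Fin 3, (![x, 1] : Fin 2 → K) (I a))
  rw [h1] at h2
  have h3 : (fun I : Fin 3 → Fin 2 => ∏ a : Fin 3, (![x, 1] : Fin 2 → K) (I a)) ∘
      (![![1, 1, 1], ![0, 1, 1], ![0, 0, 1], ![0, 0, 0]] : Fin 4 → Fin 3 → Fin 2) =
      ![1, x, x ^ 2, x ^ 3] := by
    funext b
    fin_cases b <;> simp [Fin.prod_univ_three] <;> ring
  rw [h3] at h2
  refine h2.trans (le_of_eq ?_)
  simp [logHeight₁_eq_logHeight]

/-- the matrix of the resultant identities -/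
def Mt (A B : K) : Fin 2 × (Fin 4 × Fin 2) → K := fun t =>
  (![![![12 * B * (A ^ 3 + 8 * B ^ 2), -(3 * A ^ 2 * (A ^ 3 + 8 * B ^ 2))],
      ![4 * A * (3 * A ^ 3 + 22 * B ^ 2), 2 * B * (13 * A ^ 3 + 96 * B ^ 2)],
      ![-(4 * A ^ 2 * B), A * (5 * A ^ 3 + 32 * B ^ 2)],
      ![4 * (4 * A ^ 3 + 27 * B ^ 2), A ^ 2 * B]],
    ![![16 * A, 27 * B], ![0, 5 * A], ![12, 0], ![0, -3]]] :
    Fin 2 → Fin 4 → Fin 2 → K) t.1 t.2.1 t.2.2

omit [NumberField K] in
lemma Mt_mul (A B x : K) :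
    (fun j : Fin 2 => ∑ i : Fin 4 × Fin 2, Mt A B (j, i) *
      ((![1, x, x ^ 2, x ^ 3] : Fin 4 → K) i.1 * (![th A B x, 4 * cu A B x] : Fin 2 → K) i.2)) =
      ![4 * dsc A B * x ^ 7, 4 * dsc A B] := by
  funext j
  fin_cases j
  · simp [Mt, Fintype.sum_prod_type, Fin.sum_univ_four, Fin.sum_univ_two, th, cu, dsc]
    ring
  · simp [Mt, Fintype.sum_prod_type, Fin.sum_univ_four, Fin.sum_univ_two, th, cu, dsc]
    ring

/-- functions of `A`, `B` of linear height -/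
def Lin (K : Type) [Field K] [NumberField K] (f : K → K → K) : Prop :=
  ∃ C : ℝ, 0 ≤ C ∧ ∀ A B : K, logHeight₁ (f A B) ≤ C * (1 + logHeight₁ A + logHeight₁ B)

lemma Lin.const (c : K) : Lin K (fun _ _ => c) := by
  refine ⟨logHeight₁ c, zero_le_logHeight₁ c, fun A B => ?_⟩
  have h1 := zero_le_logHeight₁ A
  have h2 := zero_le_logHeight₁ B
  have h3 := zero_le_logHeight₁ c
  nlinarith [mul_nonneg h3 h1, mul_nonneg h3 h2]

lemma Lin.fst : Lin K (fun A _ => A) := by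
  refine ⟨1, zero_le_one, fun A B => ?_⟩
  have h2 := zero_le_logHeight₁ B
  linarith

lemma Lin.snd : Lin K (fun _ B => B) := by
  refine ⟨1, zero_le_one, fun A B => ?_⟩
  have h2 := zero_le_logHeight₁ A
  linarith

lemma Lin.mul {f g : K → K → K} (hf : Lin K f) (hg : Lin K g) :
    Lin K (fun A B => f A B * g A B) := by
  obtain ⟨C, hC, h⟩ := hf
  obtain ⟨C', hC', h'⟩ := hg
  refine ⟨C + C', add_nonneg hC hC', fun A B => ?_⟩
  have := logHeight₁_mul_le (f A B) (g A B)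
  have h1 := h A B
  have h2 := h' A B
  nlinarith

lemma Lin.add {f g : K → K → K} (hf : Lin K f) (hg : Lin K g) :
    Lin K (fun A B => f A B + g A B) := by
  obtain ⟨C, hC, h⟩ := hf
  obtain ⟨C', hC', h'⟩ := hg
  have hw : 0 ≤ totalWeight K * Real.log 2 :=
    mul_nonneg (by positivity) (Real.log_nonneg (by norm_num))
  refine ⟨C + C' + totalWeight K * Real.log 2, by positivity, fun A B => ?_⟩
  have := logHeight₁_add_le (f A B) (g A B)
  have h1 := h A B
  have h2 := h' A B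
  have h3 := zero_le_logHeight₁ A
  have h4 := zero_le_logHeight₁ B
  nlinarith [mul_nonneg hw h3, mul_nonneg hw h4]

lemma Lin.neg {f : K → K → K} (hf : Lin K f) : Lin K (fun A B => -f A B) := by
  obtain ⟨C, hC, h⟩ := hf
  exact ⟨C, hC, fun A B => by rw [logHeight₁_neg]; exact h A B⟩

lemma Lin.pow {f : K → K → K} (hf : Lin K f) (n : ℕ) : Lin K (fun A B => f A B ^ n) := by
  obtain ⟨C, hC, h⟩ := hf
  refine ⟨n * C, by positivity, fun A B => ?_⟩
  rw [logHeight₁_pow]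
  have := h A B
  rw [mul_assoc]
  exact mul_le_mul_of_nonneg_left this (by positivity)

lemma lin_sum {ι : Type} [Fintype ι] (F : ι → K → K → K) (hF : ∀ i, Lin K (F i)) :
    ∃ C : ℝ, 0 ≤ C ∧ ∀ A B : K, logHeight (fun i => F i A B) ≤
      C * (1 + logHeight₁ A + logHeight₁ B) := by
  classical
  choose C hC h using hF
  refine ⟨∑ i, C i, Finset.sum_nonneg fun i _ => hC i, fun A B => ?_⟩
  refine (lh_le_sum _).trans ?_
  rw [Finset.sum_mul]
  exact Finset.sum_le_sum fun i _ => h i A B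

lemma Mt_lin : ∃ C : ℝ, 0 ≤ C ∧ ∀ A B : K, logHeight (Mt A B) ≤
    C * (1 + logHeight₁ A + logHeight₁ B) := by
  refine lin_sum (fun t A B => Mt A B t) ?_
  have c : ∀ c : K, Lin K (fun _ _ => c) := Lin.const
  have a : Lin K (fun A _ => A) := Lin.fst
  have b : Lin K (fun _ B => B) := Lin.snd
  rintro ⟨i, j, k⟩
  fin_cases i <;> fin_cases j <;> fin_cases k
  · exact ((c 12).mul b).mul ((a.pow 3).add ((c 8).mul (b.pow 2)))
  · exact (((c 3).mul (a.pow 2)).mul ((a.pow 3).add ((c 8).mul (b.pow 2)))).neg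
  · exact ((c 4).mul a).mul (((c 3).mul (a.pow 3)).add ((c 22).mul (b.pow 2)))
  · exact ((c 2).mul b).mul (((c 13).mul (a.pow 3)).add ((c 96).mul (b.pow 2)))
  · exact (((c 4).mul (a.pow 2)).mul b).neg
  · exact a.mul (((c 5).mul (a.pow 3)).add ((c 32).mul (b.pow 2)))
  · exact (c 4).mul (((c 4).mul (a.pow 3)).add ((c 27).mul (b.pow 2)))
  · exact (a.pow 2).mul b
  · exact (c 16).mul a
  · exact (c 27).mul b
  · exact c 0
  · exact (c 5).mul a
  · exact c 12
  · exact c 0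
  · exact c 0
  · exact c (-3)

lemma dbl_lower : ∃ C : ℝ, 0 ≤ C ∧ ∀ A B x : K, dsc A B ≠ 0 → cu A B x ≠ 0 →
    4 * logHeight₁ x ≤ logHeight₁ (th A B x / (4 * cu A B x)) +
      C * (1 + logHeight₁ A + logHeight₁ B) := by
  obtain ⟨C, hC, h⟩ := Mt_lin (K := K)
  have hw : 0 ≤ (totalWeight K : ℝ) * Real.log (Nat.card (Fin 4 × Fin 2)) :=
    mul_nonneg (by positivity) (Real.log_natCast_nonneg _)
  refine ⟨C + totalWeight K * Real.log (Nat.card (Fin 4 × Fin 2)), by positivity,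
    fun A B x hD hcu => ?_⟩
  have hF := logHeight_linearMap_apply_le (Mt A B) (fun i : Fin 4 × Fin 2 =>
    (![1, x, x ^ 2, x ^ 3] : Fin 4 → K) i.1 * (![th A B x, 4 * cu A B x] : Fin 2 → K) i.2)
  have h4 : (4 : K) * dsc A B ≠ 0 := mul_ne_zero (by norm_num) hD
  rw [Mt_mul, lh_scalar _ h4] at hF
  have hx : (![1, x, x ^ 2, x ^ 3] : Fin 4 → K) ≠ 0 := by simp
  have hy : (![th A B x, 4 * cu A B x] : Fin 2 → K) ≠ 0 := by
    simp [hcu]
  rw [logHeight_fun_mul_eq hx hy, ← logHeight₁_div_eq_logHeight] at hF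
  have h3 := lh_pow3 x
  have h5 := h A B
  have h6 := zero_le_logHeight₁ A
  have h7 := zero_le_logHeight₁ B
  push_cast at hF
  nlinarith [mul_nonneg hw h6, mul_nonneg hw h7]

end

theorem ZIM : ST_ZIM := by
  intro K _ _
  obtain ⟨C, hC, h⟩ := dbl_lower (K := K)
  refine ⟨C / 3, by positivity, fun A B hD x y e hg he => ?_⟩
  set C' : ℝ := C * (1 + logHeight₁ A + logHeight₁ B) with hC'
  have hC0 : 0 ≤ C' := mul_nonneg hC (by
    have h1 := zero_le_logHeight₁ A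
    have h2 := zero_le_logHeight₁ B
    linarith)
  have step : ∀ k : ℕ, 1 ≤ k → 4 * logHeight₁ (x k) ≤ logHeight₁ (x (2 * k)) + C' := by
    intro k hk
    obtain ⟨hcu, e1⟩ := KPL_dbl A B (x k) (y k) (x (2 * k)) (hg.yne k hk) (hg.curve k hk)
      (hg.dblx k hk)
    rw [e1]
    exact h A B (x k) hD hcu
  have ind : ∀ n : ℕ, (4 : ℝ) ^ n * (logHeight₁ (x 1) - C' / 3) ≤
      logHeight₁ (x (1 * 2 ^ n)) - C' / 3 := by
    intro n
    induction n with
    | zero => simp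
    | succ n ih =>
      have h1 := step (1 * 2 ^ n) (by rw [one_mul]; exact Nat.one_le_two_pow)
      have h2 : 2 * (1 * 2 ^ n) = 1 * 2 ^ (n + 1) := by ring
      rw [h2] at h1
      rw [pow_succ]
      nlinarith
  have h1 := he 1 le_rfl
  simp only [Nat.cast_one, one_pow, one_mul] at h1
  have h2 : logHeight₁ (x 1) - C' / 3 ≤ e := by
    refine ge_of_tendsto' h1 fun n => ?_
    have h3 := ind n
    rw [one_mul] at h3
    rw [le_div_iff₀ (by positivity)]
    nlinarith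
  have h3 : C / 3 * (1 + logHeight₁ A + logHeight₁ B) = C' / 3 := by rw [hC']; ring
  rw [h3]
  linarith

theorem can_nonneg {K : Type} [Field K] [NumberField K] {x : ℕ → K} {e : ℝ}
    (he : IsCanK x e) : 0 ≤ e := by
  have h1 := he 1 le_rfl
  simp only [Nat.cast_one, one_pow, one_mul] at h1
  exact ge_of_tendsto' h1 fun n => div_nonneg (zero_le_logHeight₁ _) (by positivity)

theorem HK_nonneg (hDF : ST_KDF) {K : Type} [Field K] [NumberField K] {A B : K}
    (hD : dsc A B ≠ 0) : 0 ≤ HK A B := by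
  have h := hDF K A B hD
  have h1 : 0 ≤ LD A B := finsum_nonneg fun v => (h.2.1 v).1
  exact add_nonneg h1 (zero_le_logHeight₁ _)

/-- heights of the coefficients of a reduced equation -/
theorem red_height (hKRM : ST_KRM) (hDF : ST_KDF) (K : Type) [Field K] [NumberField K] :
    ∃ C : ℝ, 0 ≤ C ∧ ∀ A B : K, dsc A B ≠ 0 → ∃ u : K, u ≠ 0 ∧
      logHeight₁ (u ^ 4 * A) ≤ HK A B + C ∧ logHeight₁ (u ^ 6 * B) ≤ HK A B + C := by
  obtain ⟨C, hC⟩ := hKRM K
  refine ⟨|C|, abs_nonneg C, fun A B hAB => ?_⟩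
  obtain ⟨u, l, hu, hl, hfin, hinf, hlog⟩ := hC A B hAB
  have hH := HK_nonneg hDF hAB
  have hd : 0 < (Module.finrank ℚ K : ℝ) := by exact_mod_cast Module.finrank_pos
  set M : ℝ := (HK A B + |C|) / (12 * Module.finrank ℚ K) with hM
  have hM0 : 0 ≤ M := by
    rw [hM]
    have := abs_nonneg C
    positivity
  have hMn : Module.finrank ℚ K * (12 * M) = HK A B + |C| := by
    rw [hM]
    field_simp
  have hlM : Real.log l ≤ M := by
    rw [hM, le_div_iff₀ (by positivity)]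
    have := le_abs_self C
    nlinarith
  have hlogw : ∀ (w : InfinitePlace K) (z : K) (n : ℕ), w z ≤ l ^ n →
      Real.log (w z) ≤ n * M := by
    intro w z n h
    by_cases hz : w z = 0
    · rw [hz, Real.log_zero]
      positivity
    · have h1 : Real.log (w z) ≤ Real.log (l ^ n) :=
        Real.log_le_log (lt_of_le_of_ne (apply_nonneg w z) (Ne.symm hz)) h
      rw [Real.log_pow] at h1
      exact h1.trans (mul_le_mul_of_nonneg_left hlM (Nat.cast_nonneg n))
  refine ⟨u, hu, ?_, ?_⟩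
  · have hA : logHeight₁ (u ^ 4 * A) ≤ Module.finrank ℚ K * (4 * M) := by
      apply KSM_height _ _ (fun v => (hfin v).1) _ (by positivity)
      intro w
      have h1 := hlogw w (u ^ 4 * A) 4 (hinf w).1
      push_cast at h1
      exact h1
    nlinarith [mul_nonneg hd.le hM0]
  · have hB : logHeight₁ (u ^ 6 * B) ≤ Module.finrank ℚ K * (6 * M) := by
      apply KSM_height _ _ (fun v => (hfin v).2) _ (by positivity)
      intro w
      have h1 := hlogw w (u ^ 6 * B) 6 (hinf w).2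
      push_cast at h1
      exact h1
    nlinarith [mul_nonneg hd.le hM0]

theorem ZIMZ (hZ : ST_ZIM) (hKRM : ST_KRM) (hDF : ST_KDF) (hKSC : ST_KSC) :
    ∀ (K : Type) [Field K] [NumberField K], ∃ C : ℝ, 0 ≤ C ∧ ∀ A B : K,
      dsc A B ≠ 0 → ∀ (x y : ℕ → K) (e : ℝ), GSeq (0 : K) A B x y → IsCanK x e →
      0 ≤ e ∧ logHeight₁ (3 + 2 * A * x 1 / B) ≤ C * (1 + HK A B + e) := by
  intro K _ _
  obtain ⟨C, hC0, hC⟩ := hZ K
  obtain ⟨C', hC'0, hC'⟩ := red_height hKRM hDF K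
  have hw : 0 ≤ (totalWeight K : ℝ) * Real.log 2 :=
    mul_nonneg (by positivity) (Real.log_nonneg (by norm_num))
  have hl2 := zero_le_logHeight₁ (2 : K)
  have hl3 := zero_le_logHeight₁ (3 : K)
  refine ⟨totalWeight K * Real.log 2 + logHeight₁ (3 : K) + logHeight₁ (2 : K) +
    2 * C' + 2 + 1 + C * (1 + 2 * C' + 2), by positivity, fun A B hAB x y e hg he => ?_⟩
  have he0 := can_nonneg he
  have hH := HK_nonneg hDF hAB
  refine ⟨he0, ?_⟩
  obtain ⟨u, hu, hA, hB⟩ := hC' A B hAB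
  have hdsc : dsc (u ^ 4 * A) (u ^ 6 * B) ≠ 0 := by
    have e1 : dsc (u ^ 4 * A) (u ^ 6 * B) = u ^ 12 * dsc A B := by
      unfold dsc
      ring
    rw [e1]
    exact mul_ne_zero (pow_ne_zero _ hu) hAB
  have h1 := hC (u ^ 4 * A) (u ^ 6 * B) hdsc (fun k => u ^ 2 * x k) (fun k => u ^ 3 * y k) e
    (hKSC K A B u x y hu hg) (KSM_can x u hu e he)
  have h2 : 3 + 2 * A * x 1 / B = 3 + 2 * (u ^ 4 * A) * (u ^ 2 * x 1) * (u ^ 6 * B)⁻¹ := by
    by_cases hB0 : B = 0
    · simp [hB0]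
    · field_simp
  have g1 := logHeight₁_add_le (3 : K) (2 * (u ^ 4 * A) * (u ^ 2 * x 1) * (u ^ 6 * B)⁻¹)
  have g2 := logHeight₁_mul_le (2 * (u ^ 4 * A) * (u ^ 2 * x 1)) (u ^ 6 * B)⁻¹
  have g3 := logHeight₁_mul_le (2 * (u ^ 4 * A)) (u ^ 2 * x 1)
  have g4 := logHeight₁_mul_le (2 : K) (u ^ 4 * A)
  rw [logHeight₁_inv] at g2
  rw [h2]
  have h3 : C * (1 + logHeight₁ (u ^ 4 * A) + logHeight₁ (u ^ 6 * B)) ≤
      C * (1 + 2 * (HK A B + C')) := mul_le_mul_of_nonneg_left (by linarith) hC0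
  have h4 : logHeight₁ (3 + 2 * (u ^ 4 * A) * (u ^ 2 * x 1) * (u ^ 6 * B)⁻¹) ≤
      totalWeight K * Real.log 2 + logHeight₁ (3 : K) + logHeight₁ (2 : K) +
        2 * (HK A B + C') + e + C * (1 + 2 * (HK A B + C')) := by
    linarith
  refine h4.trans ?_
  have p1 := mul_nonneg hw hH
  have p2 := mul_nonneg hw he0
  have p3 := mul_nonneg hl2 hH
  have p4 := mul_nonneg hl2 he0
  have p5 := mul_nonneg hl3 hH
  have p6 := mul_nonneg hl3 he0
  have p7 := mul_nonneg hC'0 hH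
  have p8 := mul_nonneg hC'0 he0
  have p9 := mul_nonneg hC0 hH
  have p10 := mul_nonneg hC0 he0
  have p11 := mul_nonneg hC0 p7
  have p12 := mul_nonneg hC0 p8
  nlinarith

theorem HTZ (hZ : ST_ZIM) (hKRM : ST_KRM) (hDF : ST_KDF) (hKSC : ST_KSC) : ST_HTZ := by
  intro K _ _
  obtain ⟨C, hC, h⟩ := ZIMZ hZ hKRM hDF hKSC K
  exact ⟨C, hC, fun A B hD _ x y e hg he => (h A B hD x y e hg he).2⟩

end Pool.Agent.Helper15.LS5
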